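import Pool.Agent.Helper74K9.SP3.Rank

/-!
# The hard instances
-/

set_option autoImplicit false

namespace Pool.Agent.Helper74K9.SP3

open Finset

/-- the main identity: a vector of the same norm which differs by an orthogonal vector -/
theorem norm_rigid {k : ℕ} (a a' b' b'' : Fin k → ℤ) (h : ∀ i, a' i + b' i = a i + b'' i)
    (h1 : ∑ i, a i * b' i = ∑ i, a i * b'' i) (h2 : ∑ i, a' i ^ 2 = ∑ i, a i ^ 2) :
    ∀ i, a' i = a i := by
  have h3 : ∑ i, (a' i - a i) ^ 2 = 0 := by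
    have e1 : ∀ i, (a' i - a i) ^ 2 =
        (a' i ^ 2 - a i ^ 2) - 2 * (a i * b'' i - a i * b' i) := by
      intro i
      have : a' i = a i + b'' i - b' i := by linarith [h i]
      rw [this]
      ring
    simp only [e1, Finset.sum_sub_distrib, ← Finset.mul_sum]
    rw [h1, h2]
    ring
  intro i
  have h4 := (Finset.sum_eq_zero_iff_of_nonneg (fun i _ => sq_nonneg (a' i - a i))).1 h3 i
    (Finset.mem_univ i)
  have h5 := pow_eq_zero_iff (two_ne_zero) |>.1 h4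
  linarith

/-- the vectors -/
abbrev Vc (k m : ℕ) := Fin k → Fin m

/-- the code of a vector -/
def cd {k m : ℕ} (a : Vc k m) : ℕ := Behrend.map (2 * m) fun i => (a i : ℕ)

theorem cd_add {k m : ℕ} {a b u v : Vc k m} (h : cd a + cd b = cd u + cd v) :
    ∀ i, (a i : ℕ) + b i = u i + v i := by
  rw [cd, cd, cd, cd, ← map_add, ← map_add] at h
  have h1 := Behrend.map_injOn (n := k) (d := 2 * m) (x₁ := (fun i => (a i : ℕ)) + fun i => (b i : ℕ))
    (x₂ := (fun i => (u i : ℕ)) + fun i => (v i : ℕ)) (fun i => by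
      have h1 := (a i).2
      have h2 := (b i).2
      show (a i : ℕ) + b i < 2 * m
      omega) (fun i => by
      have h1 := (u i).2
      have h2 := (v i).2
      show (u i : ℕ) + v i < 2 * m
      omega) h
  intro i
  exact congrFun h1 i

theorem cd_inj {k m : ℕ} : Function.Injective (cd : Vc k m → ℕ) := by
  intro a b h
  have h1 := cd_add (a := a) (b := a) (u := b) (v := a) (by rw [h])
  funext i
  have := h1 i
  ext
  omega

theorem cd_lt {k m : ℕ} (a : Vc k m) : cd a < (2 * m) ^ k := by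
  have key : ∀ (k d : ℕ) (x : Fin k → ℕ), (∀ i, x i < d) → ∑ i, x i * d ^ (i : ℕ) < d ^ k := by
    intro k d
    induction k with
    | zero => intro x _; simp
    | succ k ih =>
      intro x hx
      rw [Fin.sum_univ_castSucc]
      have h1 := ih (fun i => x i.castSucc) (fun i => hx _)
      have h2 := hx (Fin.last k)
      simp only [Fin.val_castSucc, Fin.val_last] at h1 ⊢
      have h3 : (x (Fin.last k) + 1) * d ^ k ≤ d * d ^ k := Nat.mul_le_mul_right _ h2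
      rw [pow_succ']
      nlinarith
  refine key k (2 * m) (fun i => (a i : ℕ)) fun i => ?_
  have := (a i).2
  show (a i : ℕ) < 2 * m
  omega

/-- labels -/
def al {k m : ℕ} (a : Vc k m) : ℤ := 7 * (cd a : ℤ) + 1
/-- labels -/
def be {k m : ℕ} (b : Vc k m) : ℤ := 7 * (cd b : ℤ) + 2
/-- labels -/
def ga {k m : ℕ} (a b : Vc k m) : ℤ := -(7 * ((cd a : ℤ) + cd b) + 3)

/-- the pairs with prescribed norms and scalar product -/
def GG (k m s r r' : ℕ) : Finset (Vc k m × Vc k m) :=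
  {p | ∑ i, (p.1 i : ℕ) * (p.2 i : ℕ) = s ∧ ∑ i, (p.1 i : ℕ) ^ 2 = r ∧
    ∑ i, (p.2 i : ℕ) ^ 2 = r'}

theorem mem_GG {k m s r r' : ℕ} {p : Vc k m × Vc k m} : p ∈ GG k m s r r' ↔
    ∑ i, (p.1 i : ℕ) * (p.2 i : ℕ) = s ∧ ∑ i, (p.1 i : ℕ) ^ 2 = r ∧
      ∑ i, (p.2 i : ℕ) ^ 2 = r' := by
  simp [GG]

theorem exists_GG (k m : ℕ) (hk : 1 ≤ k) (hm : 1 ≤ m) : ∃ s r r' : ℕ,
    (m ^ k) ^ 2 ≤ (GG k m s r r').card * (k * m ^ 2) ^ 3 := by
  classical
  set N := k * m ^ 2 with hN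
  have hb : ∀ x y : Vc k m, ∑ i, (x i : ℕ) * (y i : ℕ) < N := by
    intro x y
    have h1 : ∀ i, (x i : ℕ) * (y i : ℕ) ≤ (m - 1) * (m - 1) := fun i => by
      have h1 := (x i).2
      have h2 := (y i).2
      exact Nat.mul_le_mul (by omega) (by omega)
    have h2 : ∑ i, (x i : ℕ) * (y i : ℕ) ≤ ∑ i : Fin k, (m - 1) * (m - 1) :=
      Finset.sum_le_sum fun i _ => h1 i
    rw [Finset.sum_const, Finset.card_univ, Fintype.card_fin, smul_eq_mul] at h2
    refine lt_of_le_of_lt h2 ?_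
    rw [hN]
    refine Nat.mul_lt_mul_of_pos_left ?_ hk
    obtain ⟨m', rfl⟩ : ∃ m', m = m' + 1 := ⟨m - 1, by omega⟩
    simp only [Nat.add_sub_cancel]
    nlinarith
  set f : Vc k m × Vc k m → ℕ × ℕ × ℕ := fun p =>
    (∑ i, (p.1 i : ℕ) * (p.2 i : ℕ), ∑ i, (p.1 i : ℕ) ^ 2, ∑ i, (p.2 i : ℕ) ^ 2) with hf
  set T : Finset (ℕ × ℕ × ℕ) := range N ×ˢ range N ×ˢ range N with hT
  have hmap : ∀ p ∈ (Finset.univ : Finset (Vc k m × Vc k m)), f p ∈ T := by
    intro p _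
    rw [hT, Finset.mem_product, Finset.mem_product, Finset.mem_range, Finset.mem_range,
      Finset.mem_range]
    refine ⟨hb _ _, ?_, ?_⟩
    · simp only [hf, sq]; exact hb _ _
    · simp only [hf, sq]; exact hb _ _
  by_contra hcon
  push Not at hcon
  have h1 : (Finset.univ : Finset (Vc k m × Vc k m)).card =
      ∑ t ∈ T, #{p | f p = t} := Finset.card_eq_sum_card_fiberwise hmap
  have h2 : ∀ t ∈ T, #{p | f p = t} * N ^ 3 < (m ^ k) ^ 2 := by
    rintro ⟨s, r, r'⟩ _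
    have h3 := hcon s r r'
    have h4 : GG k m s r r' = ({p | f p = (s, r, r')} : Finset (Vc k m × Vc k m)) := by
      ext p
      rw [mem_GG, Finset.mem_filter, hf]
      simp only [Finset.mem_univ, true_and, Prod.mk.injEq]
    rw [← h4]
    exact h3
  have hN0 : 0 < N := lt_of_le_of_lt (Nat.zero_le _) (hb (fun _ => ⟨0, hm⟩) (fun _ => ⟨0, hm⟩))
  have hTne : T.Nonempty := ⟨(0, 0, 0), by simpa [hT] using hN0⟩
  have h5 : (∑ t ∈ T, #{p | f p = t}) * N ^ 3 < N ^ 3 * (m ^ k) ^ 2 := by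
    rw [Finset.sum_mul]
    calc ∑ t ∈ T, #{p | f p = t} * N ^ 3 < ∑ t ∈ T, (m ^ k) ^ 2 :=
          Finset.sum_lt_sum_of_nonempty hTne h2
      _ = N ^ 3 * (m ^ k) ^ 2 := by
          rw [Finset.sum_const, smul_eq_mul, hT, Finset.card_product, Finset.card_product,
            Finset.card_range]
          ring
  rw [← h1, Finset.card_univ, Fintype.card_prod, Fintype.card_fun, Fintype.card_fin,
    Fintype.card_fin] at h5
  have h6 : m ^ k * m ^ k * N ^ 3 = N ^ 3 * (m ^ k) ^ 2 := by ring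
  omega

section

variable {k m s r r' : ℕ}

/-- the rejected sets -/
def RR (k m s r r' : ℕ) (p : Vc k m × Vc k m) : Finset ℤ :=
  (({a' | (a', p.2) ∈ GG k m s r r' ∧ a' ≠ p.1} : Finset (Vc k m)).image al ∪
    ({b' | (p.1, b') ∈ GG k m s r r' ∧ b' ≠ p.2} : Finset (Vc k m)).image be) ∪
  ((({b' | (p.1, b') ∈ GG k m s r r'} : Finset (Vc k m)).image fun b' => ga p.1 b') ∪
    (({a' | (a', p.2) ∈ GG k m s r r'} : Finset (Vc k m)).image fun a' => ga a' p.2))

theorem mem_RR {p : Vc k m × Vc k m} {x : ℤ} (hx : x ∈ RR k m s r r' p) :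
    (∃ a', (a', p.2) ∈ GG k m s r r' ∧ a' ≠ p.1 ∧ x = al a') ∨
    (∃ b', (p.1, b') ∈ GG k m s r r' ∧ b' ≠ p.2 ∧ x = be b') ∨
    (∃ u v, ((u = p.1 ∧ (p.1, v) ∈ GG k m s r r') ∨ (v = p.2 ∧ (u, p.2) ∈ GG k m s r r')) ∧
      x = ga u v) := by
  simp only [RR, Finset.mem_union, Finset.mem_image, Finset.mem_filter, Finset.mem_univ,
    true_and] at hx
  rcases hx with (⟨a', ⟨h1, h2⟩, rfl⟩ | ⟨b', ⟨h1, h2⟩, rfl⟩) | (⟨b', h1, rfl⟩ | ⟨a', h1, rfl⟩)
  · exact Or.inl ⟨a', h1, h2, rfl⟩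
  · exact Or.inr (Or.inl ⟨b', h1, h2, rfl⟩)
  · exact Or.inr (Or.inr ⟨_, _, Or.inl ⟨rfl, h1⟩, rfl⟩)
  · exact Or.inr (Or.inr ⟨_, _, Or.inr ⟨rfl, h1⟩, rfl⟩)

theorem rigid {a a' b' b'' : Vc k m} (h : ∀ i, (a' i : ℕ) + b' i = a i + b'' i)
    (h1 : ∑ i, (a i : ℕ) * b' i = ∑ i, (a i : ℕ) * b'' i)
    (h2 : ∑ i, (a' i : ℕ) ^ 2 = ∑ i, (a i : ℕ) ^ 2) : a' = a := by
  have h3 := norm_rigid (fun i => ((a i : ℕ) : ℤ)) (fun i => ((a' i : ℕ) : ℤ))
    (fun i => ((b' i : ℕ) : ℤ)) (fun i => ((b'' i : ℕ) : ℤ)) (fun i => by exact_mod_cast h i)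
    (by exact_mod_cast h1) (by exact_mod_cast h2)
  funext i
  ext
  exact_mod_cast h3 i

theorem core {p : Vc k m × Vc k m} (hp : p ∈ GG k m s r r') {a' b' u v : Vc k m}
    (h1 : (a', p.2) ∈ GG k m s r r') (h1' : a' ≠ p.1)
    (h2 : (p.1, b') ∈ GG k m s r r') (h2' : b' ≠ p.2)
    (h3 : (u = p.1 ∧ (p.1, v) ∈ GG k m s r r') ∨ (v = p.2 ∧ (u, p.2) ∈ GG k m s r r'))
    (h : al a' + be b' + ga u v = 0) : False := by
  have h4 : cd a' + cd b' = cd u + cd v := by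
    rw [al, be, ga] at h
    omega
  have h5 := cd_add h4
  rw [mem_GG] at hp h1 h2
  rcases h3 with ⟨rfl, h3⟩ | ⟨rfl, h3⟩
  · rw [mem_GG] at h3
    exact h1' (rigid h5 (h2.1.trans h3.1.symm) (h1.2.1.trans hp.2.1.symm))
  · rw [mem_GG] at h3
    refine h2' (rigid (a := p.2) (a' := b') (b' := a') (b'' := u) (fun i => ?_) ?_
      (h2.2.2.trans hp.2.2.symm))
    · have := h5 i
      omega
    · have e1 : ∑ i, (p.2 i : ℕ) * (a' i : ℕ) = s := by
        rw [← h1.1]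
        exact Finset.sum_congr rfl fun i _ => mul_comm _ _
      have e2 : ∑ i, (p.2 i : ℕ) * (u i : ℕ) = s := by
        rw [← h3.1]
        exact Finset.sum_congr rfl fun i _ => mul_comm _ _
      rw [e1, e2]

theorem not_zeroSum {p : Vc k m × Vc k m} (hp : p ∈ GG k m s r r') :
    ¬ HasZeroSum (RR k m s r r' p) := by
  rintro ⟨x, hx, y, hy, z, hz, -, -, -, h⟩
  have e1 : ∀ a : Vc k m, al a % 7 = 1 := fun a => by rw [al]; omega
  have e2 : ∀ a : Vc k m, be a % 7 = 2 := fun a => by rw [be]; omega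
  have e3 : ∀ a b : Vc k m, ga a b % 7 = 4 := fun a b => by rw [ga]; omega
  rcases mem_RR hx with ⟨a1, g1, g1', rfl⟩ | ⟨b1, g1, g1', rfl⟩ | ⟨u1, v1, g1, rfl⟩ <;>
  rcases mem_RR hy with ⟨a2, g2, g2', rfl⟩ | ⟨b2, g2, g2', rfl⟩ | ⟨u2, v2, g2, rfl⟩ <;>
  rcases mem_RR hz with ⟨a3, g3, g3', rfl⟩ | ⟨b3, g3, g3', rfl⟩ | ⟨u3, v3, g3, rfl⟩
  · have := e1 a1; have := e1 a2; have := e1 a3; omega
  · have := e1 a1; have := e1 a2; have := e2 b3; omega
  · have := e1 a1; have := e1 a2; have := e3 u3 v3; omega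
  · have := e1 a1; have := e2 b2; have := e1 a3; omega
  · have := e1 a1; have := e2 b2; have := e2 b3; omega
  · exact core hp g1 g1' g2 g2' g3 h
  · have := e1 a1; have := e3 u2 v2; have := e1 a3; omega
  · exact core hp g1 g1' g3 g3' g2 (by rw [← h]; ring)
  · have := e1 a1; have := e3 u2 v2; have := e3 u3 v3; omega
  · have := e2 b1; have := e1 a2; have := e1 a3; omega
  · have := e2 b1; have := e1 a2; have := e2 b3; omega
  · exact core hp g2 g2' g1 g1' g3 (by rw [← h]; ring)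
  · have := e2 b1; have := e2 b2; have := e1 a3; omega
  · have := e2 b1; have := e2 b2; have := e2 b3; omega
  · have := e2 b1; have := e2 b2; have := e3 u3 v3; omega
  · exact core hp g3 g3' g1 g1' g2 (by rw [← h]; ring)
  · have := e2 b1; have := e3 u2 v2; have := e2 b3; omega
  · have := e2 b1; have := e3 u2 v2; have := e3 u3 v3; omega
  · have := e3 u1 v1; have := e1 a2; have := e1 a3; omega
  · exact core hp g2 g2' g3 g3' g1 (by rw [← h]; ring)
  · have := e3 u1 v1; have := e1 a2; have := e3 u3 v3; omega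
  · exact core hp g3 g3' g2 g2' g1 (by rw [← h]; ring)
  · have := e3 u1 v1; have := e2 b2; have := e2 b3; omega
  · have := e3 u1 v1; have := e2 b2; have := e3 u3 v3; omega
  · have := e3 u1 v1; have := e3 u2 v2; have := e1 a3; omega
  · have := e3 u1 v1; have := e3 u2 v2; have := e2 b3; omega
  · have := e3 u1 v1; have := e3 u2 v2; have := e3 u3 v3; omega

theorem zeroSum (a b : Vc k m) : HasZeroSum {al a, be b, ga a b} := by
  refine ⟨al a, by simp, be b, by simp, ga a b, by simp, ?_, ?_, ?_, ?_⟩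
  · rw [al, be]; omega
  · rw [al, ga]; omega
  · rw [be, ga]; omega
  · rw [al, be, ga]; ring

theorem card_RR (p : Vc k m × Vc k m) : (RR k m s r r' p).card ≤ 4 * m ^ k := by
  have h1 : ∀ S : Finset (Vc k m), S.card ≤ m ^ k := fun S => by
    have := Finset.card_le_univ S
    rwa [Fintype.card_fun, Fintype.card_fin, Fintype.card_fin] at this
  rw [RR]
  refine (Finset.card_union_le _ _).trans ?_
  have h2 : ∀ (S : Finset (Vc k m)) (f : Vc k m → ℤ), (S.image f).card ≤ m ^ k := fun S f =>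
    Finset.card_image_le.trans (h1 S)
  have h3 := (Finset.card_union_le (({a' | (a', p.2) ∈ GG k m s r r' ∧ a' ≠ p.1} :
    Finset (Vc k m)).image al) (({b' | (p.1, b') ∈ GG k m s r r' ∧ b' ≠ p.2} :
    Finset (Vc k m)).image be)).trans (Nat.add_le_add (h2 _ _) (h2 _ _))
  have h4 := (Finset.card_union_le (({b' | (p.1, b') ∈ GG k m s r r'} :
    Finset (Vc k m)).image fun b' => ga p.1 b') (({a' | (a', p.2) ∈ GG k m s r r'} :
    Finset (Vc k m)).image fun a' => ga a' p.2)).trans (Nat.add_le_add (h2 _ _) (h2 _ _))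
  omega

theorem range_lab (a b : Vc k m) (W : ℕ) (hW : 14 * (2 * m) ^ k + 3 ≤ W) :
    al a ∈ Finset.Icc (-(W : ℤ)) W ∧ be b ∈ Finset.Icc (-(W : ℤ)) W ∧
      ga a b ∈ Finset.Icc (-(W : ℤ)) W := by
  have h1 := cd_lt a
  have h2 := cd_lt b
  rw [Finset.mem_Icc, Finset.mem_Icc, Finset.mem_Icc, al, be, ga]
  refine ⟨⟨?_, ?_⟩, ⟨?_, ?_⟩, ⟨?_, ?_⟩⟩ <;> omega

theorem range_RR (p : Vc k m × Vc k m) (W : ℕ) (hW : 14 * (2 * m) ^ k + 3 ≤ W) :
    RR k m s r r' p ⊆ Finset.Icc (-(W : ℤ)) W := by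
  intro x hx
  rcases mem_RR hx with ⟨a', _, _, rfl⟩ | ⟨b', _, _, rfl⟩ | ⟨u, v, _, rfl⟩
  · exact (range_lab a' a' W hW).1
  · exact (range_lab b' b' W hW).2.1
  · exact (range_lab u v W hW).2.2

end

end Pool.Agent.Helper74K9.SP3
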