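import Mathlib

/-!
# Monotone span programs and 3SUM: definitions
-/

set_option autoImplicit false

namespace Pool.Agent.Helper74K9.SP3

/-- A monotone span program over the field `K` whose input is a set of integers: finitely many rows
`vec i`, vectors of a vector space `V` over `K`, each labelled by an integer `lab i`, and a target
vector `tgt`. -/
structure SpanProgram (K : Type) [Field K] where
  V : Type
  [addCommGroup : AddCommGroup V]
  [module : Module K V]
  rows : Type
  [fintype : Fintype rows]
  lab : rows → ℤ
  vec : rows → V
  tgt : V

attribute [instance] SpanProgram.addCommGroup SpanProgram.module SpanProgram.fintype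

/-- The program accepts the set `S` if the target vector is a linear combination of the rows which
are labelled by the elements of `S`. -/
def SpanProgram.Accepts {K : Type} [Field K] (P : SpanProgram K) (S : Finset ℤ) : Prop :=
  P.tgt ∈ Submodule.span K (P.vec '' {i | P.lab i ∈ S})

/-- The size of a span program: the number of its rows. -/
def SpanProgram.size {K : Type} [Field K] (P : SpanProgram K) : ℕ := Fintype.card P.rows

/-- `S` contains three different integers with sum zero. -/
def HasZeroSum (S : Finset ℤ) : Prop :=
  ∃ x ∈ S, ∃ y ∈ S, ∃ z ∈ S, x ≠ y ∧ x ≠ z ∧ y ≠ z ∧ x + y + z = 0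

end Pool.Agent.Helper74K9.SP3
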