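import Pool.Agent.Helper74K9.SP3.Comb

/-!
# The lower bound
-/

set_option autoImplicit false

namespace Pool.Agent.Helper74K9.SP3

open Finset

section

variable {n W : ℕ} {J : Type} [Fintype J] {K : J → Type} [∀ j, Field (K j)]
  (P : ∀ j, SpanProgram (K j)) (w : J → ℝ)

open Classical in
/-- on every set of at most `n` integers in `[-W, W]` the random program `P j`, chosen with
probability `w j`, errs with probability at most `1 / 3` -/
def Decides (n W : ℕ) : Prop :=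
  ∀ S : Finset ℤ, S ⊆ Finset.Icc (-(W : ℤ)) W → S.card ≤ n →
    ∑ j with ¬ ((P j).Accepts S ↔ HasZeroSum S), w j ≤ 1 / 3

open Classical in
theorem lower_param (hw : ∀ j, 0 ≤ w j) (hw1 : ∑ j, w j = 1) (hdec : Decides P w n W)
    {k m : ℕ} (hk : 1 ≤ k) (hm : 1 ≤ m) (hn : 14 * (2 * m) ^ k + 3 ≤ n) (hW : n ≤ W) :
    (((m ^ k : ℕ) : ℝ)) ^ 2 ≤ ((k * m ^ 2 : ℕ) : ℝ) ^ 3 * 3 *
      (∑ j, w j * ((P j).size : ℝ) + 2 * ((m ^ k : ℕ) : ℝ)) := by
  obtain ⟨s, r, r', hG⟩ := exists_GG k m hk hm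
  set G := GG k m s r r' with hGd
  set H : Vc k m × Vc k m → Finset ℤ := fun p => {al p.1, be p.2, ga p.1 p.2} with hH
  set Gj : J → Finset (Vc k m × Vc k m) := fun j =>
    G.filter fun p => (P j).Accepts (H p) ∧ ¬ (P j).Accepts (RR k m s r r' p) with hGj
  have hmk : m ^ k ≤ (2 * m) ^ k := Nat.pow_le_pow_left (by omega) k
  -- the size of `P j`
  have hsize : ∀ j, (Gj j).card ≤ (P j).size + (m ^ k + m ^ k) := by
    intro j
    have hsub : ∀ p ∈ Gj j, p ∈ G := fun p hp => (Finset.mem_filter.1 hp).1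
    have h := key (P j) (Gj j) al be ga (RR k m s r r')
      (fun a b h => cd_inj (by rw [al, al] at h; omega))
      (fun a b h => cd_inj (by rw [be, be] at h; omega))
      (fun a b h => by rw [al, be] at h; omega)
      (fun a b b' hb hb' hne => by
        have h1 := hsub _ hb'
        rw [RR]
        simp only [Finset.mem_union, Finset.mem_image, Finset.mem_filter, Finset.mem_univ,
          true_and]
        exact ⟨Or.inl (Or.inr ⟨b', ⟨h1, hne⟩, rfl⟩), Or.inr (Or.inl ⟨b', h1, rfl⟩)⟩)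
      (fun a a' b hb hb' hne => by
        have h1 := hsub _ hb'
        rw [RR]
        simp only [Finset.mem_union, Finset.mem_image, Finset.mem_filter, Finset.mem_univ,
          true_and]
        exact ⟨Or.inl (Or.inl ⟨a', ⟨h1, hne⟩, rfl⟩), Or.inr (Or.inr ⟨a', h1, rfl⟩)⟩)
      (fun a b hb => by
        have h1 := hsub _ hb
        rw [RR]
        simp only [Finset.mem_union, Finset.mem_image, Finset.mem_filter, Finset.mem_univ,
          true_and]
        exact Or.inr (Or.inl ⟨b, h1, rfl⟩))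
      (fun p hp => (Finset.mem_filter.1 hp).2.1) (fun p hp => (Finset.mem_filter.1 hp).2.2)
      Finset.univ Finset.univ (fun _ _ => Finset.mem_univ _) (fun _ _ => Finset.mem_univ _)
    rw [Finset.card_univ, Fintype.card_fun, Fintype.card_fin, Fintype.card_fin] at h
    exact h
  -- a pair is good with probability at least `1 / 3`
  have hgood : ∀ p ∈ G, (1 : ℝ) / 3 ≤ ∑ j with ((P j).Accepts (H p) ∧
      ¬ (P j).Accepts (RR k m s r r' p)), w j := by
    intro p hp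
    have h1 := hdec (H p) (by
        intro x hx
        obtain ⟨g1, g2, g3⟩ := range_lab p.1 p.2 W (hn.trans hW)
        rw [hH, Finset.mem_insert, Finset.mem_insert, Finset.mem_singleton] at hx
        rcases hx with rfl | rfl | rfl
        · exact g1
        · exact g2
        · exact g3)
      ((Finset.card_le_three).trans (by omega))
    have h2 := hdec (RR k m s r r' p) (range_RR p W (hn.trans hW))
      ((card_RR p).trans (by omega))
    have h3 : HasZeroSum (H p) := zeroSum p.1 p.2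
    have h4 : ¬ HasZeroSum (RR k m s r r' p) := not_zeroSum hp
    simp only [h3, h4, iff_true, iff_false, not_not] at h1 h2
    have h5 : ∑ j, w j ≤ ∑ j with ((P j).Accepts (H p) ∧ ¬ (P j).Accepts (RR k m s r r' p)), w j +
        (∑ j with ¬ (P j).Accepts (H p), w j + ∑ j with (P j).Accepts (RR k m s r r' p), w j) := by
      rw [Finset.sum_filter, Finset.sum_filter, Finset.sum_filter, ← Finset.sum_add_distrib,
        ← Finset.sum_add_distrib]
      refine Finset.sum_le_sum fun j _ => ?_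
      have := hw j
      by_cases g1 : (P j).Accepts (H p) <;> by_cases g2 : (P j).Accepts (RR k m s r r' p) <;>
        simp [g1, g2, this]
    rw [hw1] at h5
    linarith
  have hsum : (G.card : ℝ) / 3 ≤ ∑ j, w j * ((Gj j).card : ℝ) := by
    have h1 : ∑ j, w j * ((Gj j).card : ℝ) = ∑ p ∈ G, ∑ j with ((P j).Accepts (H p) ∧
        ¬ (P j).Accepts (RR k m s r r' p)), w j := by
      have h2 : ∀ j, w j * ((Gj j).card : ℝ) = ∑ p ∈ G, if ((P j).Accepts (H p) ∧
          ¬ (P j).Accepts (RR k m s r r' p)) then w j else 0 := by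
        intro j
        rw [← Finset.sum_filter, Finset.sum_const, nsmul_eq_mul, mul_comm]
      simp only [h2]
      rw [Finset.sum_comm]
      exact Finset.sum_congr rfl fun p _ => by rw [Finset.sum_filter]
    rw [h1]
    calc (G.card : ℝ) / 3 = ∑ p ∈ G, (1 : ℝ) / 3 := by
          rw [Finset.sum_const, nsmul_eq_mul]; ring
      _ ≤ _ := Finset.sum_le_sum hgood
  have hT : ∑ j, w j * ((Gj j).card : ℝ) ≤
      ∑ j, w j * ((P j).size : ℝ) + 2 * ((m ^ k : ℕ) : ℝ) := by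
    have h1 : ∑ j, w j * ((P j).size : ℝ) + 2 * ((m ^ k : ℕ) : ℝ) =
        ∑ j, w j * (((P j).size : ℝ) + 2 * ((m ^ k : ℕ) : ℝ)) := by
      simp only [mul_add, Finset.sum_add_distrib]
      rw [← Finset.sum_mul, hw1, one_mul]
    rw [h1]
    refine Finset.sum_le_sum fun j _ => mul_le_mul_of_nonneg_left ?_ (hw j)
    have h2 : ((Gj j).card : ℝ) ≤ (((P j).size + (m ^ k + m ^ k) : ℕ) : ℝ) := by
      exact_mod_cast hsize j
    rw [Nat.cast_add, Nat.cast_add] at h2
    linarith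
  have h6 : (((m ^ k) ^ 2 : ℕ) : ℝ) ≤ ((G.card * (k * m ^ 2) ^ 3 : ℕ) : ℝ) := by
    exact_mod_cast hG
  rw [Nat.cast_pow, Nat.cast_mul, Nat.cast_pow _ 3] at h6
  have h7 : (0 : ℝ) ≤ ((k * m ^ 2 : ℕ) : ℝ) ^ 3 := by positivity
  calc (((m ^ k : ℕ) : ℝ)) ^ 2 ≤ (G.card : ℝ) * ((k * m ^ 2 : ℕ) : ℝ) ^ 3 := h6
    _ = ((k * m ^ 2 : ℕ) : ℝ) ^ 3 * 3 * ((G.card : ℝ) / 3) := by ring
    _ ≤ _ := mul_le_mul_of_nonneg_left (hsum.trans hT) (by positivity)

end

theorem cube_le (k : ℕ) : k ^ 3 ≤ 4 ^ k := by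
  induction k with
  | zero => simp
  | succ k ih =>
    rcases Nat.lt_or_ge k 2 with h | h
    · interval_cases k <;> norm_num
    · rw [pow_succ 4 k]
      nlinarith [Nat.mul_le_mul h h, Nat.mul_le_mul (Nat.mul_le_mul h h) h, sq_nonneg (k : ℤ)]

theorem exists_k (n : ℕ) (hn : 64 ≤ n) : ∃ k, 1 ≤ k ∧ 2 ^ (k * (k + 1) + 4) ≤ n ∧
    n < 2 ^ ((k + 1) * (k + 2) + 4) := by
  have hex : ∃ k, n < 2 ^ (k * (k + 1) + 4) :=
    ⟨n, lt_of_lt_of_le Nat.lt_two_pow_self (Nat.pow_le_pow_right (by norm_num) (by nlinarith))⟩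
  set q := Nat.find hex with hq
  have h1 : n < 2 ^ (q * (q + 1) + 4) := Nat.find_spec hex
  have h2 : 2 ≤ q := by
    by_contra hlt
    have : q = 0 ∨ q = 1 := by omega
    rcases this with h | h <;> rw [h] at h1 <;> norm_num at h1 <;> omega
  refine ⟨q - 1, by omega, ?_, ?_⟩
  · have h3 := Nat.find_min hex (m := q - 1) (by omega)
    omega
  · have : q - 1 + 1 = q := by omega
    have h4 : q - 1 + 2 = q + 1 := by omega
    rw [this, h4]
    exact h1

open Classical in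
theorem lower {n W : ℕ} {J : Type} [Fintype J] {K : J → Type} [∀ j, Field (K j)]
    (P : ∀ j, SpanProgram (K j)) (w : J → ℝ) (hw : ∀ j, 0 ≤ w j) (hw1 : ∑ j, w j = 1)
    (hdec : Decides P w n W) (hn : 1 ≤ n) (hW : n ≤ W) :
    (n : ℝ) ^ 2 ≤ 2 ^ (22 * √(Real.logb 2 n) + 20) *
      (∑ j, w j * ((P j).size : ℝ) + 1) := by
  set T := ∑ j, w j * ((P j).size : ℝ) with hT
  have hT0 : 0 ≤ T := Finset.sum_nonneg fun j _ => mul_nonneg (hw j) (Nat.cast_nonneg _)
  have hsq : 0 ≤ √(Real.logb 2 n) := Real.sqrt_nonneg _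
  rcases Nat.lt_or_ge n 64 with h64 | h64
  · have h1 : (n : ℝ) ^ 2 ≤ 2 ^ (20 : ℝ) := by
      have : (n : ℝ) ≤ 64 := by exact_mod_cast h64.le
      have h2 : (n : ℝ) ^ 2 ≤ 64 ^ 2 := pow_le_pow_left₀ (Nat.cast_nonneg _) this 2
      refine h2.trans ?_
      rw [show (20 : ℝ) = ((20 : ℕ) : ℝ) by norm_num, Real.rpow_natCast]
      norm_num
    have h2 : (2 : ℝ) ^ (20 : ℝ) ≤ 2 ^ (22 * √(Real.logb 2 n) + 20) :=
      Real.rpow_le_rpow_of_exponent_le (by norm_num) (by linarith)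
    calc (n : ℝ) ^ 2 ≤ 2 ^ (22 * √(Real.logb 2 n) + 20) := h1.trans h2
      _ ≤ 2 ^ (22 * √(Real.logb 2 n) + 20) * (T + 1) :=
        le_mul_of_one_le_right (by positivity) (by linarith)
  · obtain ⟨k, hk1, hk2, hk3⟩ := exists_k n h64
    have hm : 1 ≤ 2 ^ k := Nat.one_le_two_pow
    have e1 : (2 * 2 ^ k) ^ k = 2 ^ (k * (k + 1)) := by
      rw [← pow_succ', ← pow_mul]; ring_nf
    have hn' : 14 * (2 * 2 ^ k) ^ k + 3 ≤ n := by
      rw [e1]
      refine le_trans ?_ hk2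
      rw [pow_add]
      have : 2 ^ 2 ≤ 2 ^ (k * (k + 1)) := Nat.pow_le_pow_right (by norm_num) (by nlinarith)
      omega
    have h1 := lower_param P w hw hw1 hdec hk1 hm hn' hW
    rw [← hT] at h1
    -- exponents
    have e2 : (((2 ^ k) ^ k : ℕ) : ℝ) = 2 ^ (k ^ 2) := by
      rw [← pow_mul, ← sq]; push_cast; rfl
    have e3 : ((k * (2 ^ k) ^ 2 : ℕ) : ℝ) ^ 3 * 3 ≤ 2 ^ (8 * k + 2) := by
      have g1 : (k * (2 ^ k) ^ 2) ^ 3 * 3 ≤ 2 ^ (8 * k + 2) := by
        have g2 := cube_le k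
        have g3 : (k * (2 ^ k) ^ 2) ^ 3 = k ^ 3 * 2 ^ (6 * k) := by
          rw [mul_pow, ← pow_mul, ← pow_mul]
          ring_nf
        rw [g3]
        have g4 : 2 ^ (8 * k + 2) = 4 ^ k * 2 ^ (6 * k) * 4 := by
          have g5 : (4 : ℕ) ^ k = 2 ^ (2 * k) := by rw [pow_mul]; norm_num
          rw [g5, ← pow_add, show (8 * k + 2) = (2 * k + 6 * k) + 2 by ring, pow_add]
          norm_num
        rw [g4]
        have g5 : k ^ 3 * 2 ^ (6 * k) ≤ 4 ^ k * 2 ^ (6 * k) := Nat.mul_le_mul_right _ g2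
        omega
      have g6 : (((k * (2 ^ k) ^ 2) ^ 3 * 3 : ℕ) : ℝ) ≤ ((2 ^ (8 * k + 2) : ℕ) : ℝ) := by
        exact_mod_cast g1
      rw [Nat.cast_mul, Nat.cast_pow _ 3, Nat.cast_pow 2 (8 * k + 2)] at g6
      exact g6
    rw [e2] at h1
    have h2 : ((2 : ℝ) ^ (k ^ 2)) ^ 2 ≤ 2 ^ (8 * k + 2) * (T + 2 * 2 ^ (k ^ 2)) :=
      h1.trans (mul_le_mul_of_nonneg_right e3 (by positivity))
    have hnn : (n : ℝ) ^ 2 ≤ 2 ^ (2 * k ^ 2 + 6 * k + 12) := by
      have g1 : n ^ 2 ≤ (2 ^ ((k + 1) * (k + 2) + 4)) ^ 2 := Nat.pow_le_pow_left hk3.le 2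
      rw [← pow_mul, show ((k + 1) * (k + 2) + 4) * 2 = 2 * k ^ 2 + 6 * k + 12 by ring] at g1
      exact_mod_cast g1
    have hmain : (n : ℝ) ^ 2 ≤ 2 ^ (22 * k + 20) * (T + 1) := by
      by_cases hc : (2 : ℝ) ^ (8 * k + 4) ≤ 2 ^ (k ^ 2)
      · have g1 : ((2 : ℝ) ^ (k ^ 2)) ^ 2 ≤ 2 * (2 ^ (8 * k + 2) * T) := by
          have g2 : (2 : ℝ) ^ (8 * k + 4) = 4 * 2 ^ (8 * k + 2) := by
            rw [show 8 * k + 4 = (8 * k + 2) + 2 by ring, pow_add]; ring
          rw [g2] at hc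
          have g3 : (2 : ℝ) ^ (8 * k + 2) * (2 * 2 ^ (k ^ 2)) ≤ ((2 : ℝ) ^ (k ^ 2)) ^ 2 / 2 := by
            have g4 : (0 : ℝ) < 2 ^ (k ^ 2) := by positivity
            nlinarith
          nlinarith
        calc (n : ℝ) ^ 2 ≤ 2 ^ (2 * k ^ 2 + 6 * k + 12) := hnn
          _ = 2 ^ (6 * k + 12) * ((2 : ℝ) ^ (k ^ 2)) ^ 2 := by
            rw [← pow_mul, ← pow_add]; ring_nf
          _ ≤ 2 ^ (6 * k + 12) * (2 * (2 ^ (8 * k + 2) * T)) :=
            mul_le_mul_of_nonneg_left g1 (by positivity)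
          _ = 2 ^ (14 * k + 15) * T := by
            rw [show 14 * k + 15 = (6 * k + 12) + 1 + (8 * k + 2) by ring, pow_add, pow_add]
            ring
          _ ≤ 2 ^ (22 * k + 20) * (T + 1) := by
            refine mul_le_mul ?_ (by linarith) hT0 (by positivity)
            exact pow_le_pow_right₀ (by norm_num) (by omega)
      · have g1 : k ^ 2 < 8 * k + 4 := by
          by_contra hge
          exact hc (pow_le_pow_right₀ (by norm_num) (by omega))
        calc (n : ℝ) ^ 2 ≤ 2 ^ (2 * k ^ 2 + 6 * k + 12) := hnn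
          _ ≤ 2 ^ (22 * k + 20) := pow_le_pow_right₀ (by norm_num) (by omega)
          _ ≤ 2 ^ (22 * k + 20) * (T + 1) :=
            le_mul_of_one_le_right (by positivity) (by linarith)
    refine hmain.trans (mul_le_mul_of_nonneg_right ?_ (by linarith))
    have hkL : (k : ℝ) ≤ √(Real.logb 2 n) := by
      apply Real.le_sqrt_of_sq_le
      rw [Real.le_logb_iff_rpow_le (by norm_num) (by exact_mod_cast hn)]
      have g1 : (2 : ℝ) ^ (k ^ 2) ≤ n := by
        have g2 : 2 ^ (k ^ 2) ≤ n :=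
          (Nat.pow_le_pow_right (by norm_num) (by nlinarith)).trans hk2
        exact_mod_cast g2
      have g3 : (2 : ℝ) ^ ((k : ℝ) ^ 2) = 2 ^ (k ^ 2) := by
        rw [show ((k : ℝ) ^ 2) = ((k ^ 2 : ℕ) : ℝ) by push_cast; ring, Real.rpow_natCast]
      rw [g3]
      exact g1
    rw [← Real.rpow_natCast]
    refine Real.rpow_le_rpow_of_exponent_le (by norm_num) ?_
    push_cast
    linarith

end Pool.Agent.Helper74K9.SP3
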