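import Pool.Agent.Helper74K9.SP3.Defs

/-!
# The rank argument
-/

set_option autoImplicit false

namespace Pool.Agent.Helper74K9.SP3

open Finset

/-- vectors with a diagonal matrix of inner products -/
theorem diag_card {K β κ : Type*} [Field K] [Fintype κ] (S : Finset β) (u v : β → κ → K)
    (hoff : ∀ b ∈ S, ∀ b' ∈ S, b' ≠ b → ∑ j, u b' j * v b j = 0)
    (hdiag : ∀ b ∈ S, ∑ j, u b j * v b j ≠ 0) : S.card ≤ Fintype.card κ := by
  classical
  have hind : LinearIndependent K (fun b : S => u b) := by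
    rw [Fintype.linearIndependent_iff]
    intro g hg b
    have h1 : ∑ j, (∑ b' : S, g b' • u b') j * v b j = 0 := by
      rw [hg]; simp
    have h2 : ∑ j, (∑ b' : S, g b' • u b') j * v b j =
        ∑ b' : S, g b' * ∑ j, u b' j * v b j := by
      simp only [Finset.sum_apply, Pi.smul_apply, smul_eq_mul, Finset.sum_mul, Finset.mul_sum]
      rw [Finset.sum_comm]
      exact Finset.sum_congr rfl fun _ _ => Finset.sum_congr rfl fun _ _ => by ring
    rw [h2, Finset.sum_eq_single b] at h1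
    · rcases mul_eq_zero.1 h1 with h | h
      · exact h
      · exact absurd h (hdiag b b.2)
    · intro b' _ hb'
      rw [hoff b b.2 b' b'.2 (fun h => hb' (Subtype.ext h)), mul_zero]
    · intro h; exact absurd (Finset.mem_univ _) h
  have h3 := hind.fintype_card_le_finrank
  rw [Module.finrank_fintype_fun_eq_card, Fintype.card_coe] at h3
  exact h3

section

variable {K : Type} [Field K] (P : SpanProgram K)

theorem exists_comb {S : Finset ℤ} (h : P.Accepts S) :
    ∃ c : P.rows → K, (∀ i, P.lab i ∉ S → c i = 0) ∧ ∑ i, c i • P.vec i = P.tgt := by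
  classical
  rw [SpanProgram.Accepts, Finsupp.mem_span_image_iff_linearCombination] at h
  obtain ⟨l, hl, hl2⟩ := h
  refine ⟨l, fun i hi => ?_, ?_⟩
  · by_contra hne
    exact hi (hl (Finsupp.mem_support_iff.2 hne))
  · rw [← hl2, Finsupp.linearCombination_apply, Finsupp.sum_fintype]
    intro i; rw [zero_smul]

theorem exists_dual {S : Finset ℤ} (h : ¬ P.Accepts S) :
    ∃ d : Module.Dual K P.V, d P.tgt = 1 ∧ ∀ i, P.lab i ∈ S → d (P.vec i) = 0 := by
  classical
  obtain ⟨f, hf1, hf2⟩ := Submodule.exists_dual_map_eq_bot_of_notMem h inferInstance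
  refine ⟨(f P.tgt)⁻¹ • f, ?_, fun i hi => ?_⟩
  · rw [LinearMap.smul_apply, smul_eq_mul, inv_mul_cancel₀ hf1]
  · have h1 : f (P.vec i) ∈ Submodule.map f (Submodule.span K (P.vec '' {i | P.lab i ∈ S})) :=
      Submodule.mem_map_of_mem (Submodule.subset_span ⟨i, hi, rfl⟩)
    rw [hf2, Submodule.mem_bot] at h1
    rw [LinearMap.smul_apply, h1, smul_zero]

open Classical in
/-- **The rank argument.** -/
theorem key {X Y : Type} (G : Finset (X × Y)) (α : X → ℤ) (β : Y → ℤ)
    (γ : X → Y → ℤ) (R : X × Y → Finset ℤ)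
    (hα : Function.Injective α) (hβ : Function.Injective β) (hαβ : ∀ x y, α x ≠ β y)
    (hR1 : ∀ a b b', (a, b) ∈ G → (a, b') ∈ G → b' ≠ b → β b' ∈ R (a, b) ∧ γ a b' ∈ R (a, b))
    (hR2 : ∀ a a' b, (a, b) ∈ G → (a', b) ∈ G → a' ≠ a → α a' ∈ R (a, b) ∧ γ a' b ∈ R (a, b))
    (hR3 : ∀ a b, (a, b) ∈ G → γ a b ∈ R (a, b))
    (hacc : ∀ p ∈ G, P.Accepts {α p.1, β p.2, γ p.1 p.2}) (hrej : ∀ p ∈ G, ¬ P.Accepts (R p))
    (A : Finset X) (B : Finset Y) (hA : ∀ p ∈ G, p.1 ∈ A) (hB : ∀ p ∈ G, p.2 ∈ B) :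
    G.card ≤ P.size + (A.card + B.card) := by
  choose! c hc0 hc1 using fun p hp => exists_comb P (hacc p hp)
  choose! d hd1 hd0 using fun p hp => exists_dual P (hrej p hp)
  -- the contribution of the rows with label `x`
  set part : ℤ → X × Y → X × Y → K := fun x p q =>
    ∑ i with P.lab i = x, c p i * d q (P.vec i) with hpart
  have htot : ∀ p ∈ G, ∀ q ∈ G, ∑ i, c p i * d q (P.vec i) = 1 := by
    intro p hp q hq
    rw [← hd1 q hq, ← hc1 p hp, map_sum]
    exact Finset.sum_congr rfl fun i _ => by rw [map_smul, smul_eq_mul]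
  have hsplit : ∀ (x : ℤ) p q, (∀ i, P.lab i ≠ x → c p i * d q (P.vec i) = 0) →
      ∑ i, c p i * d q (P.vec i) = part x p q := by
    intro x p q h
    rw [hpart]
    simp only
    rw [Finset.sum_filter]
    refine Finset.sum_congr rfl fun i _ => ?_
    by_cases hi : P.lab i = x
    · rw [if_pos hi]
    · rw [if_neg hi, h i hi]
  have hone : ∀ a b b', (a, b) ∈ G → (a, b') ∈ G → b' ≠ b →
      part (α a) (a, b') (a, b) = 1 := by
    intro a b b' hb hb' hne
    rw [← hsplit _ _ _ ?_, htot _ hb' _ hb]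
    intro i hi
    by_cases h1 : P.lab i ∈ ({α a, β b', γ a b'} : Finset ℤ)
    · rw [Finset.mem_insert, Finset.mem_insert, Finset.mem_singleton] at h1
      obtain ⟨h2, h3⟩ := hR1 a b b' hb hb' hne
      rcases h1 with h1 | h1 | h1
      · exact absurd h1 hi
      · rw [hd0 _ hb i (h1 ▸ h2), mul_zero]
      · rw [hd0 _ hb i (h1 ▸ h3), mul_zero]
    · rw [hc0 _ hb' i h1, zero_mul]
  have htwo : ∀ a a' b, (a, b) ∈ G → (a', b) ∈ G → a' ≠ a →
      part (β b) (a', b) (a, b) = 1 := by
    intro a a' b hb hb' hne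
    rw [← hsplit _ _ _ ?_, htot _ hb' _ hb]
    intro i hi
    by_cases h1 : P.lab i ∈ ({α a', β b, γ a' b} : Finset ℤ)
    · rw [Finset.mem_insert, Finset.mem_insert, Finset.mem_singleton] at h1
      obtain ⟨h2, h3⟩ := hR2 a a' b hb hb' hne
      rcases h1 with h1 | h1 | h1
      · rw [hd0 _ hb i (h1 ▸ h2), mul_zero]
      · exact absurd h1 hi
      · rw [hd0 _ hb i (h1 ▸ h3), mul_zero]
    · rw [hc0 _ hb' i h1, zero_mul]
  have hthree : ∀ p ∈ G, part (α p.1) p p + part (β p.2) p p = 1 := by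
    rintro ⟨a, b⟩ hp
    rw [← htot _ hp _ hp, hpart]
    simp only
    rw [Finset.sum_filter, Finset.sum_filter, ← Finset.sum_add_distrib]
    refine Finset.sum_congr rfl fun i _ => ?_
    by_cases h1 : P.lab i ∈ ({α a, β b, γ a b} : Finset ℤ)
    · rw [Finset.mem_insert, Finset.mem_insert, Finset.mem_singleton] at h1
      rcases h1 with h1 | h1 | h1
      · rw [if_pos h1, if_neg (by rw [h1]; exact hαβ a b), add_zero]
      · rw [if_pos h1, if_neg (by rw [h1]; exact (hαβ a b).symm), zero_add]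
      · rw [hd0 _ hp i (h1 ▸ hR3 a b hp)]
        simp
    · rw [hc0 _ hp i h1]
      simp
  -- the fibres
  have hrow : ∀ (x : ℤ) (S : Finset (X × Y)), (∀ p ∈ S, ∀ q ∈ S, q ≠ p → part x q p = 1) →
      (∀ p ∈ S, part x p p ≠ 1) → S.card ≤ #{i | P.lab i = x} + 1 := by
    intro x S h1 h2
    have h3 : ∀ p q, ∑ o : Option {i // P.lab i = x},
        (o.elim 1 fun i => c q i) * (o.elim 1 fun i => - d p (P.vec i)) = 1 - part x q p := by
      intro p q
      rw [Fintype.sum_option]
      simp only [Option.elim_none, Option.elim_some, mul_one, mul_neg, Finset.sum_neg_distrib]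
      rw [hpart]
      simp only
      rw [← sub_eq_add_neg]
      congr 1
      have hmem : ∀ i, i ∈ Finset.univ.filter (fun i => P.lab i = x) ↔ P.lab i = x := fun i => by
        rw [Finset.mem_filter, and_iff_right (Finset.mem_univ i)]
      exact (Finset.sum_subtype (Finset.univ.filter fun i => P.lab i = x) hmem
        (fun i => c q i * d p (P.vec i))).symm
    have h4 := diag_card (K := K) (κ := Option {i // P.lab i = x}) S
      (fun p o => o.elim 1 fun i => c p i) (fun p o => o.elim 1 fun i => - d p (P.vec i))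
      (fun p hp q hq hne => by rw [h3, h1 p hp q hq hne, sub_self])
      (fun p hp => by rw [h3]; exact sub_ne_zero.2 (h2 p hp).symm)
    rw [Fintype.card_option, Fintype.card_subtype] at h4
    exact h4
  -- counting
  set G1 := G.filter fun p => part (α p.1) p p ≠ 1 with hG1
  set G2 := G.filter fun p => part (β p.2) p p ≠ 1 with hG2
  have hcov : G.card ≤ G1.card + G2.card := by
    refine (Finset.card_le_card ?_).trans (Finset.card_union_le G1 G2)
    intro p hp
    rw [Finset.mem_union, hG1, hG2, Finset.mem_filter, Finset.mem_filter]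
    by_cases h : part (α p.1) p p = 1
    · right
      refine ⟨hp, fun h' => ?_⟩
      have h3 := hthree p hp
      rw [h, h'] at h3
      exact one_ne_zero (add_eq_left.1 h3)
    · exact Or.inl ⟨hp, h⟩
  have hG1c : G1.card ≤ ∑ a ∈ A, (#{i | P.lab i = α a} + 1) := by
    rw [Finset.card_eq_sum_card_fiberwise (f := Prod.fst) (t := A)
      (fun p hp => hA p (Finset.mem_filter.1 hp).1)]
    refine Finset.sum_le_sum fun a _ => hrow (α a) _ ?_ ?_
    · rintro ⟨a1, b⟩ hp ⟨a2, b'⟩ hq hne
      rw [Finset.mem_filter, Finset.mem_filter] at hp hq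
      obtain ⟨⟨hp1, _⟩, rfl⟩ := hp
      obtain ⟨⟨hq1, _⟩, h⟩ := hq
      simp only at h
      subst h
      exact hone _ _ _ hp1 hq1 (fun h => hne (by rw [h]))
    · rintro ⟨a1, b⟩ hp
      rw [Finset.mem_filter, Finset.mem_filter] at hp
      obtain ⟨⟨_, h⟩, rfl⟩ := hp
      exact h
  have hG2c : G2.card ≤ ∑ b ∈ B, (#{i | P.lab i = β b} + 1) := by
    rw [Finset.card_eq_sum_card_fiberwise (f := Prod.snd) (t := B)
      (fun p hp => hB p (Finset.mem_filter.1 hp).1)]
    refine Finset.sum_le_sum fun b _ => hrow (β b) _ ?_ ?_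
    · rintro ⟨a, b1⟩ hp ⟨a', b2⟩ hq hne
      rw [Finset.mem_filter, Finset.mem_filter] at hp hq
      obtain ⟨⟨hp1, _⟩, rfl⟩ := hp
      obtain ⟨⟨hq1, _⟩, h⟩ := hq
      simp only at h
      subst h
      exact htwo _ _ _ hp1 hq1 (fun h => hne (by rw [h]))
    · rintro ⟨a, b1⟩ hp
      rw [Finset.mem_filter, Finset.mem_filter] at hp
      obtain ⟨⟨_, h⟩, rfl⟩ := hp
      exact h
  have hrows : ∑ a ∈ A, #{i | P.lab i = α a} + ∑ b ∈ B, #{i | P.lab i = β b} ≤ P.size := by
    have h1 : ∑ a ∈ A, #{i | P.lab i = α a} = ∑ x ∈ A.image α, #{i | P.lab i = x} := by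
      rw [Finset.sum_image fun _ _ _ _ h => hα h]
    have h2 : ∑ b ∈ B, #{i | P.lab i = β b} = ∑ x ∈ B.image β, #{i | P.lab i = x} := by
      rw [Finset.sum_image fun _ _ _ _ h => hβ h]
    have h3 : Disjoint (A.image α) (B.image β) := by
      rw [Finset.disjoint_left]
      rintro x hx hx'
      obtain ⟨a, _, rfl⟩ := Finset.mem_image.1 hx
      obtain ⟨b, _, hb⟩ := Finset.mem_image.1 hx'
      exact hαβ a b hb.symm
    rw [h1, h2, ← Finset.sum_union h3, Finset.sum_card_fiberwise_eq_card_filter]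
    exact (Finset.card_filter_le _ _).trans (le_of_eq Finset.card_univ)
  rw [Finset.sum_add_distrib] at hG1c hG2c
  simp only [Finset.sum_const, smul_eq_mul, mul_one] at hG1c hG2c
  omega

end

end Pool.Agent.Helper74K9.SP3
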