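import Pool.Agent.Helper74K9.SP3.Defs

/-!
# The upper bound
-/

set_option autoImplicit false

namespace Pool.Agent.Helper74K9.SP3

open Finset

section

variable (K : Type) [Field K] (W : ℕ)

/-- the integers in `[-W, W]` -/
abbrev Iv := ↥(Finset.Icc (-(W : ℤ)) W)

/-- pairs -/
abbrev Qv := Iv W × Iv W

/-- the space of the program -/
abbrev Vv := K × (Qv W → K) × (Qv W → K)

/-- the labels -/
def labF (p : Qv W × Fin 3) : ℤ :=
  if p.2 = 0 then p.1.1 else if p.2 = 1 then p.1.2 else -((p.1.1 : ℤ) + (p.1.2 : ℤ))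

/-- the pair can be used -/
def Good (q : Qv W) : Prop :=
  (q.1 : ℤ) ≠ q.2 ∧ (q.1 : ℤ) ≠ -((q.1 : ℤ) + (q.2 : ℤ)) ∧
        (q.2 : ℤ) ≠ -((q.1 : ℤ) + (q.2 : ℤ))

open Classical in
/-- the rows -/
noncomputable def vecF (p : Qv W × Fin 3) : Vv K W :=
  if Good W p.1 then
    if p.2 = 0 then (0, Pi.single p.1 1, 0) else if p.2 = 1 then (0, 0, Pi.single p.1 1) else
      (1, -Pi.single p.1 1, -Pi.single p.1 1)
  else 0

theorem upper_aux (S : Finset ℤ) (hS : S ⊆ Finset.Icc (-(W : ℤ)) W) :
    ((1, 0, 0) : Vv K W) ∈ Submodule.span K (vecF K W '' {i | labF W i ∈ S}) ↔ HasZeroSum S := by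
  classical
  refine ⟨fun h => ?_, fun h => ?_⟩
  · by_contra hno
    -- a functional
    set A : Qv W → K := fun q => if (q.1 : ℤ) ∉ S then 1 else 0 with hA
    set B : Qv W → K := fun q => if (q.1 : ℤ) ∈ S ∧ (q.2 : ℤ) ∉ S then 1 else 0 with hB
    let d : (K × (Qv W → K) × (Qv W → K)) →ₗ[K] K :=
      LinearMap.coprod LinearMap.id (LinearMap.coprod
        (∑ q, A q • LinearMap.proj q) (∑ q, B q • LinearMap.proj q))
    have hd : ∀ t u v, d (t, u, v) = t + (∑ q, A q * u q + ∑ q, B q * v q) := by
      intro t u v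
      simp [d, LinearMap.coprod_apply]
    have hle : Submodule.span K (vecF K W '' {i | labF W i ∈ S}) ≤
        LinearMap.ker d := by
      rw [Submodule.span_le]
      rintro _ ⟨⟨q, i⟩, hi, rfl⟩
      show d _ = 0
      by_cases hg : Good W q
      · have hi' : labF W (q, i) ∈ S := hi
        fin_cases i
        · have e : vecF K W (q, 0) = (0, Pi.single q 1, 0) := by
            simp [vecF, hg]
          have e2 : (q.1 : ℤ) ∈ S := by
            have := hi'
            simpa [labF] using this
          show d (vecF K W (q, 0)) = 0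
          rw [e, hd]
          have a0 : A q = 0 := if_neg (not_not.2 e2)
          simp [Pi.single_apply, a0]
        · have e : vecF K W (q, 1) = (0, 0, Pi.single q 1) := by
            simp [vecF, hg]
          have e2 : (q.2 : ℤ) ∈ S := by
            have := hi'
            simpa [labF] using this
          show d (vecF K W (q, 1)) = 0
          rw [e, hd]
          have b0 : B q = 0 := if_neg (fun h => h.2 e2)
          simp [Pi.single_apply, b0]
        · have e : vecF K W (q, 2) = (1, -Pi.single q 1, -Pi.single q 1) := by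
            simp [vecF, hg]
          have e2 : -((q.1 : ℤ) + (q.2 : ℤ)) ∈ S := by
            have : labF W (q, 2) ∈ S := hi'
            have e3 : labF W (q, 2) = -((q.1 : ℤ) + (q.2 : ℤ)) := by
              unfold labF
              rw [if_neg (by simp), if_neg (by simp)]
            rwa [e3] at this
          show d (vecF K W (q, 2)) = 0
          rw [e, hd]
          obtain ⟨g1, g2, g3⟩ := hg
          have hxy : ¬ ((q.1 : ℤ) ∈ S ∧ (q.2 : ℤ) ∈ S) := fun hxy =>
            hno ⟨q.1, hxy.1, q.2, hxy.2, -((q.1 : ℤ) + (q.2 : ℤ)), e2, g1, g2, g3, by ring⟩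
          have hs : ∀ C : Qv W → K, ∑ r, C r * (-(Pi.single q (1 : K) : Qv W → K)) r = - C q := by
            intro C
            rw [Finset.sum_eq_single q]
            · simp
            · intro b _ hb
              simp [hb]
            · simp
          have hs' : ∀ C : Qv W → K, ∑ r, C r * (-(Pi.single q (1 : K) : Qv W → K)) r =
              - C q := hs
          rw [hs' A, hs' B]
          by_cases hx : (q.1 : ℤ) ∈ S
          · have hy : (q.2 : ℤ) ∉ S := fun hy => hxy ⟨hx, hy⟩
            have a0 : A q = 0 := if_neg (not_not.2 hx)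
            have b0 : B q = 1 := if_pos ⟨hx, hy⟩
            rw [a0, b0]
            ring
          · have a0 : A q = 1 := if_pos hx
            have b0 : B q = 0 := if_neg (fun h => hx h.1)
            rw [a0, b0]
            ring
      · have e : vecF K W (q, i) = 0 := by
          simp [vecF, hg]
        rw [e, map_zero]
    have h1 := hle h
    rw [LinearMap.mem_ker] at h1
    have h2 : d (1, 0, 0) = 1 := by
      rw [hd]
      simp
    rw [h2] at h1
    exact one_ne_zero h1
  · obtain ⟨x, hx, y, hy, z, hz, hxy, hxz, hyz, hsum⟩ := h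
    have hz' : z = -(x + y) := by linarith
    subst hz'
    obtain ⟨q, hq⟩ : ∃ q : Qv W, q = (⟨x, hS hx⟩, ⟨y, hS hy⟩) := ⟨_, rfl⟩
    have hq1 : (q.1 : ℤ) = x := by rw [hq]
    have hq2 : (q.2 : ℤ) = y := by rw [hq]
    have hg : Good W q := by
      unfold Good
      rw [hq1, hq2]
      exact ⟨hxy, hxz, hyz⟩
    have m0 : vecF K W (q, 0) ∈ Submodule.span K (vecF K W '' {i | labF W i ∈ S}) :=
      Submodule.subset_span ⟨(q, 0), by
        show labF W (q, 0) ∈ S
        have e3 : labF W (q, 0) = x := by
          unfold labF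
          rw [if_pos rfl]
          exact hq1
        rwa [e3], rfl⟩
    have m1 : vecF K W (q, 1) ∈ Submodule.span K (vecF K W '' {i | labF W i ∈ S}) :=
      Submodule.subset_span ⟨(q, 1), by
        show labF W (q, 1) ∈ S
        have e3 : labF W (q, 1) = y := by
          unfold labF
          rw [if_neg (by simp), if_pos rfl]
          exact hq2
        rwa [e3], rfl⟩
    have m2 : vecF K W (q, 2) ∈ Submodule.span K (vecF K W '' {i | labF W i ∈ S}) :=
      Submodule.subset_span ⟨(q, 2), by
        show labF W (q, 2) ∈ S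
        have e3 : labF W (q, 2) = -(x + y) := by
          unfold labF
          rw [if_neg (by simp), if_neg (by simp), hq1, hq2]
        rwa [e3], rfl⟩
    have h3 := Submodule.add_mem _ (Submodule.add_mem _ m0 m1) m2
    have e0 : vecF K W (q, 0) = (0, Pi.single q 1, 0) := by simp [vecF, hg]
    have e1 : vecF K W (q, 1) = (0, 0, Pi.single q 1) := by simp [vecF, hg]
    have e2 : vecF K W (q, 2) = (1, -Pi.single q 1, -Pi.single q 1) := by simp [vecF, hg]
    have h4 : vecF K W (q, 0) + vecF K W (q, 1) + vecF K W (q, 2) = (1, 0, 0) := by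
      rw [e0, e1, e2]
      simp
    rwa [h4] at h3

theorem upper : ∃ P : SpanProgram K, P.size ≤ 3 * (2 * W + 1) ^ 2 ∧
    ∀ S : Finset ℤ, S ⊆ Finset.Icc (-(W : ℤ)) W → (P.Accepts S ↔ HasZeroSum S) := by
  refine ⟨{ V := Vv K W, rows := Qv W × Fin 3, lab := labF W, vec := vecF K W, tgt := (1, 0, 0) },
    ?_, fun S hS => upper_aux K W S hS⟩
  show Fintype.card ((Iv W × Iv W) × Fin 3) ≤ _
  rw [Fintype.card_prod, Fintype.card_prod, Fintype.card_coe, Fintype.card_fin, Int.card_Icc]
  have : ((W : ℤ) + 1 - -(W : ℤ)).toNat = 2 * W + 1 := by omega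
  rw [this]
  nlinarith

end

end Pool.Agent.Helper74K9.SP3
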